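import Pool.Agent.TFP.ExplicitFinal

/-!
# An explicit upper bound for the strong fractional choice number of triangle-free planar graphs
-/

set_option autoImplicit false

namespace Pool.Agent.Results.MP_143092_co.ExplicitBound

open Pool.Agent.TFP

/-- The strong fractional choice number of the class of triangle-free planar graphs is at most
`4 - 1 / 1600`. -/
theorem result : chfsQ ≤ 4 - 1 / 1600 :=
  explicit_chfsQ

end Pool.Agent.Results.MP_143092_co.ExplicitBound
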