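import Pool.Agent.TFP.Large

/-!
# Multiple list colouring of triangle-free planar graphs for large multiplicities
-/

set_option autoImplicit false

namespace Pool.Agent.Results.MP_143092_co.LargeM

open Pool.Agent.TFP

/-- For every `ε > 0` and all sufficiently large `m` (depending only on `ε`), every triangle-free
planar graph is `(⌈(7 / 2 + ε) m⌉, m)`-choosable. -/
theorem result (ε : ℝ) (hε : 0 < ε) : ∃ m₀ : ℕ, ∀ m : ℕ, m₀ ≤ m →
    ∀ (V : Type) [Fintype V] (G : SimpleGraph V), IsPlanar G → G.CliqueFree 3 →
      Choosable G ⌈(7 / 2 + ε) * (m : ℝ)⌉₊ m :=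
  choosable_large ε hε

end Pool.Agent.Results.MP_143092_co.LargeM
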